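import Pool.Agent.Lib.MP_b5021c_nt.IfaceE6
import Pool.Agent.Lib.MP_b5021c_nt.B.H58.Alo
import Pool.Agent.Lib.MP_b5021c_nt.H84.Tya

/-!
# Board b5, row E6_ONA: a drop-free load of class `V(N)`, `N` near `θ`, which crosses a load with a
drop (`OnaS`)
-/

namespace Pool.Agent.B5.H14.Ona

open scoped LaurentPolynomial
open Polynomial
open Pool.Agent.B5.H84.Tya (classV_int mono)

/-- (E6_ONA) -/
theorem ona (hFD : FDS) (hCLP : ClpS) (hINJ : Inj1S) (hCRO : CroS) (hNBF : NbfS) (hBIG : Big6S)
    (hNUR : NurS) (hMV : MVS) (hRk : RkS) (hE1 : E1S) : OnaS := by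
  classical
  intro P L _ _ _ _ _ phi D S i0 h eta eta' θ N hFP h4 hRS hθ hP hV hlo hhi hfull hV' hcr hdrop hv3
  have hD := hFP.dd
  have hMV' := (hMV ℤ).1 N _ hV
  have hMQ : M (D.coeff 0) = θ := ((hMV ℤ).2 θ _ hP).2
  have hcc : CC phi D S i0 eta := ⟨hD, by omega, hRS, h, hMV'.1⟩
  have hfullR : (Module.finrank ℤ L : ℝ) = rk (supp (cl (co phi i0) S h eta D)) + 1 := by
    exact_mod_cast hfull
  obtain ⟨c, n, G, fd⟩ := hFD ℤ P L phi D S i0 eta h hcc
  by_cases hbig : big G = ∅
  · left
    have hsm : ∀ i, ¬ 1 < M ((G i).coeff 0) := by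
      intro i hi
      have : i ∈ big G := by
        unfold big
        rw [Finset.mem_filter]
        exact ⟨Finset.mem_univ _, hi⟩
      rw [hbig] at this
      exact absurd this (Finset.notMem_empty _)
    have h1 := hNBF ℤ P L phi D S i0 eta h c n G fd hsm
    rw [hMQ, hMV'.2] at h1
    linarith
  · have hm1 : 1 ≤ (big G).card := by
      rw [Nat.one_le_iff_ne_zero, Ne, Finset.card_eq_zero]
      exact hbig
    obtain ⟨hcV, N₁, hN₁, hprod, hlsd, hrk⟩ := hBIG ℤ P L phi D S i0 eta h c n G N
      (fun x => 2 * max 1 x + 4800) hFP fd hV mono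
      (fun x => by
        have := le_max_left 1 x
        show 1 ≤ 2 * max 1 x + 4800
        linarith)
      (fun x _ => hv3 x)
    have hMc : 1 ≤ M c := hcV.1
    have hp0 : 0 ≤ ∏ i, N₁ i := Finset.prod_nonneg fun i _ => le_trans zero_le_one (hN₁ i).1.le
    have hple : ∏ i, N₁ i ≤ N := by nlinarith
    rw [hMQ] at hlsd
    by_cases hsim : Simple (D.coeff 0) (D.coeff 0 + (eta : RO ℤ) * D.coeff S) c G
    · right
      have hk : co phi i0 ≠ 0 := by
        intro h0
        rw [h0] at h
        simp at h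
      have hfk : Module.finrank ℤ (Ker (co phi i0)) + 1 = Module.finrank ℤ L := (hRk L L).1 _ hk
      have hrA : rk (supp (cl (co phi i0) S h eta D)) = Module.finrank ℤ (Ker (co phi i0)) := by
        omega
      have hsn := hCRO ℤ P L phi D S i0 eta h c n G fd hrA hsim eta' hV' (Or.inl hcr) hdrop
      obtain ⟨i, heq, hv0, hDD⟩ := H58.onefac hCLP hINJ phi D S i0 eta h c n G hFP fd hsn hsim.1 hrA
      rw [hv0] at hV
      obtain ⟨Na, Nb, ha, hb, hNab⟩ := (hE1 ℤ).1 N _ _ hV
      have hNa : Na = 1 := by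
        rw [← ((hMV ℤ).1 Na _ ha).2]
        exact hsim.2.1
      refine ⟨c, G i, ?_, heq, hDD, ?_⟩
      · rw [← hNa]
        exact ha
      · rw [hNab, hNa, one_mul]
        exact hb
    · left
      have hN2 : ∀ i, 2 ≤ N₁ i := by
        intro i
        obtain ⟨h5, Q', h6⟩ := hN₁ i
        rcases classV_int h6 with h7 | h7
        · linarith
        · exact h7
      have hfin := hNUR θ (big G).card (snp phi S i0 G).card 0 N₁ (by linarith) hm1 hN2
        (by linarith) (by
        intro hm
        by_cases hc1 : M c = 1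
        · have h2 : ¬ M (D.coeff 0) ^ 2 < 2 * M (D.coeff 0 + (eta : RO ℤ) * D.coeff S) ^ 2 :=
            fun h2 => hsim ⟨hm, hc1, h2⟩
          rw [hMQ, hMV'.2] at h2
          push Not at h2
          nlinarith
        · have h2 : (2 : ℝ) ≤ M c := by
            rcases classV_int hcV with h | h
            · exact absurd h hc1
            · exact h
          have h4' : 2 * ∏ i, N₁ i ≤ N := by
            rw [← hprod]
            exact mul_le_mul_of_nonneg_right h2 hp0
          linarith) (by linarith) (Or.inl (by norm_num))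
      have hrk' : (rk (supp (cl (co phi i0) S h eta D)) : ℝ) ≤
          (snp phi S i0 G).card + ∑ i, (2 * max 1 (N₁ i) + 4800) := hrk
      push_cast at hfin
      linarith

end Pool.Agent.B5.H14.Ona
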